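import Mathlib

open MeasureTheory Set Filter Topology

namespace Pool.Agent.Results.MP_d7d923_pr.Value

/-- RED's pure strategies: pairs `(a, A)` with `0 ≤ a ≤ a + A ≤ 1`, standing for the closed
interval `[a, a + A]` of length `A` inside `[0,1]`. -/
abbrev Red : Type := {c : ℝ × ℝ // 0 ≤ c.1 ∧ c.1 ≤ c.1 + c.2 ∧ c.1 + c.2 ≤ 1}

/-- BLUE's pure strategies: the points of `[0,1]`. -/
abbrev Blue : Type := {p : ℝ // 0 ≤ p ∧ p ≤ 1}

open Classical in
/-- The payoff to RED: `-β * A` if the point lies in the closed interval, and `A` otherwise. -/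
noncomputable def payoff (β : ℝ) (c : Red) (p : Blue) : ℝ :=
  if p.1 ∈ Set.Icc c.1.1 (c.1.1 + c.1.2) then -(β * c.1.2) else c.1.2

/-- The expected payoff to RED when RED plays the mixed strategy `μ` and BLUE plays `ν`,
independently. -/
noncomputable def expPayoff (β : ℝ) (μ : ProbabilityMeasure Red) (ν : ProbabilityMeasure Blue) : ℝ :=
  ∫ z, payoff β z.1 z.2 ∂((μ : Measure Red).prod (ν : Measure Blue))

/-- The lower value `sup_μ inf_ν E[payoff]`, over all Borel probability measures. -/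
noncomputable def lowerValue (β : ℝ) : EReal :=
  ⨆ μ : ProbabilityMeasure Red, ⨅ ν : ProbabilityMeasure Blue, ((expPayoff β μ ν : ℝ) : EReal)

/-- The upper value `inf_ν sup_μ E[payoff]`, over all Borel probability measures. -/
noncomputable def upperValue (β : ℝ) : EReal :=
  ⨅ ν : ProbabilityMeasure Blue, ⨆ μ : ProbabilityMeasure Red, ((expPayoff β μ ν : ℝ) : EReal)

/-- `M β = sup_{n ≥ 1} (n - 1 - β) / n ^ 2`. -/
noncomputable def M (β : ℝ) : ℝ := ⨆ n : ℕ+, ((n : ℝ) - 1 - β) / (n : ℝ) ^ 2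

/-! ### The number `M β` -/

lemma M_term_le (β : ℝ) (hβ : 0 ≤ β) (n : ℕ+) :
    ((n : ℝ) - 1 - β) / (n : ℝ) ^ 2 ≤ 1 / (4 * (1 + β)) := by
  have hn : (0 : ℝ) < n := by exact_mod_cast n.pos
  rw [div_le_div_iff₀ (by positivity) (by positivity)]
  nlinarith [sq_nonneg ((n : ℝ) - 2 * (1 + β))]

lemma M_bdd (β : ℝ) (hβ : 0 ≤ β) :
    BddAbove (Set.range fun n : ℕ+ => ((n : ℝ) - 1 - β) / (n : ℝ) ^ 2) :=
  ⟨1 / (4 * (1 + β)), by rintro _ ⟨n, rfl⟩; exact M_term_le β hβ n⟩

lemma M_le (β : ℝ) (hβ : 0 ≤ β) : M β ≤ 1 / (4 * (1 + β)) :=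
  ciSup_le fun n => M_term_le β hβ n

lemma le_M (β : ℝ) (hβ : 0 ≤ β) (n : ℕ+) : ((n : ℝ) - 1 - β) / (n : ℝ) ^ 2 ≤ M β :=
  le_ciSup (M_bdd β hβ) n

lemma M_pos (β : ℝ) (hβ : 0 ≤ β) : 0 < M β := by
  obtain ⟨n, hn⟩ := exists_nat_gt (1 + β)
  have hn0 : 0 < n := by
    rcases Nat.eq_zero_or_pos n with h | h
    · subst h; simp at hn; linarith
    · exact h
  have h := le_M β hβ ⟨n, hn0⟩
  refine lt_of_lt_of_le ?_ h
  have : (0 : ℝ) < n := by exact_mod_cast hn0
  simp only [PNat.mk_coe]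
  apply div_pos
  · linarith
  · positivity

/-- The supremum defining `M β` is attained. -/
lemma M_attained (β : ℝ) (hβ : 0 ≤ β) :
    ∃ n : ℕ+, ((n : ℝ) - 1 - β) / (n : ℝ) ^ 2 = M β := by
  by_contra hne
  push Not at hne
  have hpos := M_pos β hβ
  -- all large `n` have a small term
  obtain ⟨N, hN⟩ := exists_nat_gt (2 / M β)
  have hN0 : 0 < N := by
    rcases Nat.eq_zero_or_pos N with h | h
    · subst h
      have : 0 < 2 / M β := by positivity
      simp at hN; linarith
    · exact h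
  have hbig : ∀ n : ℕ+, N ≤ (n : ℕ) → ((n : ℝ) - 1 - β) / (n : ℝ) ^ 2 ≤ M β / 2 := by
    intro n hn
    have hn' : (0 : ℝ) < n := by exact_mod_cast n.pos
    have h1 : (N : ℝ) ≤ n := by exact_mod_cast hn
    rw [div_le_div_iff₀ (by positivity) (by positivity)]
    have h2 : 2 < M β * n := by
      rw [div_lt_iff₀ hpos] at hN
      nlinarith
    nlinarith
  -- finitely many remaining terms
  have hfin : ∃ c < M β, ∀ n : ℕ+, ((n : ℝ) - 1 - β) / (n : ℝ) ^ 2 ≤ c := by
    let S : Finset ℕ+ := Finset.Icc 1 ⟨N, hN0⟩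
    have hS : S.Nonempty := ⟨1, by simp [S]⟩
    obtain ⟨m, hmS, hm⟩ := S.exists_max_image (fun n : ℕ+ => ((n : ℝ) - 1 - β) / (n : ℝ) ^ 2) hS
    have hmlt : ((m : ℝ) - 1 - β) / (m : ℝ) ^ 2 < M β := lt_of_le_of_ne (le_M β hβ m) (hne m)
    refine ⟨max (((m : ℝ) - 1 - β) / (m : ℝ) ^ 2) (M β / 2), max_lt hmlt (by linarith), ?_⟩
    intro n
    by_cases h : N ≤ (n : ℕ)
    · exact le_max_of_le_right (hbig n h)
    · apply le_max_of_le_left
      apply hm
      simp only [S, Finset.mem_Icc]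
      refine ⟨one_le, ?_⟩
      rw [← PNat.coe_le_coe]
      simp only [PNat.mk_coe]
      omega
  obtain ⟨c, hc, hcn⟩ := hfin
  have : M β ≤ c := ciSup_le hcn
  linarith

/-! ### BLUE's optimal strategy -/

/-- `G v t = sup_k (k - k² v / t)`, evaluated at `t` clamped to `[v, 1]`. -/
noncomputable def G (v y : ℝ) : ℝ := ⨆ k : ℕ, ((k : ℝ) - (k : ℝ) ^ 2 * v / (max v (min y 1)))

lemma G_bdd (v y : ℝ) (hv : 0 < v) (hv1 : v ≤ 1) :
    BddAbove (Set.range fun k : ℕ => ((k : ℝ) - (k : ℝ) ^ 2 * v / (max v (min y 1)))) := by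
  refine ⟨1 / (4 * v), ?_⟩
  rintro _ ⟨k, rfl⟩
  have ht1 : max v (min y 1) ≤ 1 := max_le hv1 (min_le_right _ _)
  have ht0 : 0 < max v (min y 1) := lt_of_lt_of_le hv (le_max_left _ _)
  have h1 : (k : ℝ) ^ 2 * v ≤ (k : ℝ) ^ 2 * v / (max v (min y 1)) := by
    rw [le_div_iff₀ ht0]
    have : 0 ≤ (k : ℝ) ^ 2 * v := by positivity
    nlinarith
  have h2 : (k : ℝ) - (k : ℝ) ^ 2 * v ≤ 1 / (4 * v) := by
    rw [le_div_iff₀ (by positivity)]
    nlinarith [sq_nonneg (2 * v * k - 1)]
  simp only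
  linarith

lemma G_mono (v : ℝ) (hv : 0 < v) (hv1 : v ≤ 1) : Monotone (G v) := by
  intro y z hyz
  apply ciSup_mono (G_bdd v z hv hv1)
  intro k
  have h1 : max v (min y 1) ≤ max v (min z 1) := max_le_max le_rfl (min_le_min hyz le_rfl)
  have ht0 : 0 < max v (min y 1) := lt_of_lt_of_le hv (le_max_left _ _)
  have : (k : ℝ) ^ 2 * v / (max v (min z 1)) ≤ (k : ℝ) ^ 2 * v / (max v (min y 1)) :=
    div_le_div_of_nonneg_left (by positivity) ht0 h1
  linarith

lemma le_G (v y : ℝ) (hv : 0 < v) (hv1 : v ≤ 1) (k : ℕ) :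
    (k : ℝ) - (k : ℝ) ^ 2 * v / (max v (min y 1)) ≤ G v y :=
  le_ciSup (G_bdd v y hv hv1) k

lemma G_nonneg (v y : ℝ) (hv : 0 < v) (hv1 : v ≤ 1) : 0 ≤ G v y := by
  have := le_G v y hv hv1 0
  simpa using this

lemma nat_le_sq (k : ℕ) : (k : ℝ) ≤ (k : ℝ) ^ 2 := by
  have : k ≤ k ^ 2 := Nat.le_self_pow (by norm_num) k
  exact_mod_cast this

lemma G_low (v y : ℝ) (hv : 0 < v) (hv1 : v ≤ 1) (hy : y ≤ v) : G v y = 0 := by
  apply le_antisymm _ (G_nonneg v y hv hv1)
  apply ciSup_le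
  intro k
  have : max v (min y 1) = v := max_eq_left ((min_le_left _ _).trans hy)
  rw [this, mul_div_assoc, div_self hv.ne', mul_one]
  linarith [nat_le_sq k]

lemma G_high (β y : ℝ) (hβ : 0 ≤ β) (hy : 1 ≤ y) : G (M β) y = 1 + β := by
  have hv := M_pos β hβ
  have hv1 : M β ≤ 1 := (M_le β hβ).trans (by rw [div_le_one (by positivity)]; linarith)
  have ht : max (M β) (min y 1) = 1 := by rw [min_eq_right hy]; exact max_eq_right hv1
  apply le_antisymm
  · apply ciSup_le
    intro k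
    rw [ht, div_one]
    rcases Nat.eq_zero_or_pos k with h | h
    · subst h; simp; linarith
    · have h1 := le_M β hβ ⟨k, h⟩
      simp only [PNat.mk_coe] at h1
      have hk : (0 : ℝ) < k := by exact_mod_cast h
      rw [div_le_iff₀ (by positivity)] at h1
      linarith
  · obtain ⟨n, hn⟩ := M_attained β hβ
    have h1 := le_G (M β) y hv hv1 n
    rw [ht, div_one] at h1
    have hn0 : (0 : ℝ) < n := by exact_mod_cast n.pos
    rw [div_eq_iff (by positivity)] at hn
    linarith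

/-- The key inequality (Cauchy-Schwarz). -/
lemma titu {x d : ℝ} (hx : 0 < x) (hd : 0 < d) (k : ℝ) :
    (k + 1) ^ 2 / (x + d) ≤ k ^ 2 / x + 1 / d := by
  rw [div_add_div _ _ hx.ne' hd.ne', div_le_div_iff₀ (by positivity) (by positivity)]
  nlinarith [sq_nonneg (k * d - x)]

lemma G_step (v x d : ℝ) (hv : 0 < v) (hv1 : v ≤ 1) (hx : 0 ≤ x) (hd : v < d) (hxd : x + d ≤ 1) :
    G v x + (1 - v / d) ≤ G v (x + d) := by
  have hd0 : 0 < d := hv.trans hd
  have hy : max v (min (x + d) 1) = x + d := by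
    rw [min_eq_left hxd]; exact max_eq_right (by linarith)
  suffices h : G v x ≤ G v (x + d) - (1 - v / d) by linarith
  apply ciSup_le
  intro k
  rcases le_or_gt v x with hvx | hvx
  · have hx0 : 0 < x := hv.trans_le hvx
    have hxx : max v (min x 1) = x := by
      rw [min_eq_left (by linarith)]; exact max_eq_right hvx
    have h1 := le_G v (x + d) hv hv1 (k + 1)
    rw [hy] at h1
    rw [hxx]
    have h2 := titu hx0 hd0 (k : ℝ)
    have h3 : ((k : ℝ) + 1) ^ 2 * v / (x + d) ≤ (k : ℝ) ^ 2 * v / x + v / d := by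
      have := mul_le_mul_of_nonneg_left h2 hv.le
      calc ((k : ℝ) + 1) ^ 2 * v / (x + d) = v * (((k : ℝ) + 1) ^ 2 / (x + d)) := by ring
        _ ≤ v * ((k : ℝ) ^ 2 / x + 1 / d) := this
        _ = _ := by ring
    push_cast at h1
    linarith
  · have hxx : max v (min x 1) = v := max_eq_left ((min_le_left _ _).trans hvx.le)
    rw [hxx, mul_div_assoc, div_self hv.ne', mul_one]
    have h1 := le_G v (x + d) hv hv1 1
    rw [hy] at h1
    have h2 : v / (x + d) ≤ v / d := div_le_div_of_nonneg_left hv.le hd0 (by linarith)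
    have h3 := nat_le_sq k
    push_cast at h1
    have h4 : (1 : ℝ) ^ 2 * v / (x + d) = v / (x + d) := by ring
    linarith

lemma G_div_mono (β : ℝ) (hβ : 0 ≤ β) : Monotone (fun y => G (M β) y / (1 + β)) := by
  have hv := M_pos β hβ
  have hv1 : M β ≤ 1 := (M_le β hβ).trans (by rw [div_le_one (by positivity)]; linarith)
  intro y z hyz
  have := G_mono (M β) hv hv1 hyz
  exact div_le_div_of_nonneg_right this (by linarith)

/-! ### The payoff -/

/-- The set of points of BLUE that lie in the interval `c` of RED. -/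
def hit (c : Red) : Set Blue := {p | p.1 ∈ Set.Icc c.1.1 (c.1.1 + c.1.2)}

lemma hit_measurable (c : Red) : MeasurableSet (hit c) :=
  measurable_subtype_coe measurableSet_Icc

lemma payoff_eq (β : ℝ) (c : Red) (p : Blue) :
    payoff β c p = c.1.2 - (1 + β) * c.1.2 * (hit c).indicator (fun _ => (1 : ℝ)) p := by
  classical
  unfold payoff hit
  by_cases h : p.1 ∈ Set.Icc c.1.1 (c.1.1 + c.1.2)
  · rw [if_pos h, Set.indicator_of_mem (by exact h)]; ring
  · rw [if_neg h, Set.indicator_of_notMem (by exact h)]; ring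

lemma len_nonneg (c : Red) : 0 ≤ c.1.2 := by
  have := c.2.2.1; linarith

lemma len_le_one (c : Red) : c.1.2 ≤ 1 := by
  have := c.2.1; have := c.2.2.2; linarith

lemma payoff_bound (β : ℝ) (hβ : 0 ≤ β) (c : Red) (p : Blue) : ‖payoff β c p‖ ≤ 1 + β := by
  classical
  have h0 := len_nonneg c
  have h1 := len_le_one c
  unfold payoff
  split_ifs
  · rw [Real.norm_eq_abs, abs_neg, abs_of_nonneg (by positivity)]; nlinarith
  · rw [Real.norm_eq_abs, abs_of_nonneg h0]; linarith

lemma payoff_measurable (β : ℝ) : Measurable (fun z : Red × Blue => payoff β z.1 z.2) := by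
  classical
  unfold payoff
  apply Measurable.ite
  · have h1 : Measurable (fun z : Red × Blue => z.1.1.1) := by fun_prop
    have h2 : Measurable (fun z : Red × Blue => z.1.1.1 + z.1.1.2) := by fun_prop
    have h3 : Measurable (fun z : Red × Blue => z.2.1) := by fun_prop
    exact (measurableSet_le h1 h3).inter (measurableSet_le h3 h2)
  · fun_prop
  · fun_prop

lemma payoff_integrable (β : ℝ) (hβ : 0 ≤ β) (μ : ProbabilityMeasure Red)
    (ν : ProbabilityMeasure Blue) :
    Integrable (fun z : Red × Blue => payoff β z.1 z.2)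
      ((μ : Measure Red).prod (ν : Measure Blue)) := by
  apply Integrable.of_bound (payoff_measurable β).aestronglyMeasurable (1 + β)
  exact Eventually.of_forall fun z => payoff_bound β hβ z.1 z.2

/-! ### The upper bound: BLUE's optimal strategy -/

/-- The clamping map `ℝ → [0,1]`. -/
noncomputable def clamp (x : ℝ) : Blue :=
  ⟨max 0 (min x 1), le_max_left _ _, max_le zero_le_one (min_le_right _ _)⟩

lemma clamp_measurable : Measurable clamp := by
  unfold clamp
  apply Measurable.subtype_mk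
  fun_prop

/-- The distribution function of BLUE's optimal strategy. -/
noncomputable def blueF (β : ℝ) (hβ : 0 ≤ β) : StieltjesFunction ℝ :=
  (G_div_mono β hβ).stieltjesFunction

lemma blueF_ge (β : ℝ) (hβ : 0 ≤ β) (y : ℝ) : G (M β) y / (1 + β) ≤ blueF β hβ y := by
  unfold blueF
  rw [Monotone.stieltjesFunction_eq]
  exact (G_div_mono β hβ).le_rightLim le_rfl

lemma blueF_leftLim_le (β : ℝ) (hβ : 0 ≤ β) (y : ℝ) :
    Function.leftLim (blueF β hβ) y ≤ G (M β) y / (1 + β) := by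
  have hmono : Monotone (blueF β hβ) := (blueF β hβ).mono
  have ht : Tendsto (blueF β hβ) (𝓝[<] y) (𝓝 (Function.leftLim (blueF β hβ) y)) :=
    hmono.tendsto_leftLim y
  refine le_of_tendsto ht ?_
  filter_upwards [self_mem_nhdsWithin] with z hz
  unfold blueF
  rw [Monotone.stieltjesFunction_eq]
  exact (G_div_mono β hβ).rightLim_le hz

lemma M_le_one (β : ℝ) (hβ : 0 ≤ β) : M β ≤ 1 :=
  (M_le β hβ).trans (by rw [div_le_one (by positivity)]; linarith)

lemma blue_isProb (β : ℝ) (hβ : 0 ≤ β) : IsProbabilityMeasure (blueF β hβ).measure := by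
  have hv := M_pos β hβ
  have hv1 := M_le_one β hβ
  have hb : 0 < 1 + β := by linarith
  apply StieltjesFunction.isProbabilityMeasure
  · apply tendsto_const_nhds.congr'
    filter_upwards [Iio_mem_atBot (M β)] with y hy
    have hy : y < M β := hy
    apply le_antisymm
    · refine le_trans ?_ (blueF_ge β hβ y)
      rw [G_low _ _ hv hv1 hy.le]; simp
    · unfold blueF
      rw [Monotone.stieltjesFunction_eq]
      refine ((G_div_mono β hβ).rightLim_le hy).trans ?_
      rw [G_low _ _ hv hv1 le_rfl]; simp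
  · apply tendsto_const_nhds.congr'
    filter_upwards [Ioi_mem_atTop (1 : ℝ)] with y hy
    have hy : 1 < y := hy
    apply le_antisymm
    · refine le_trans ?_ (blueF_ge β hβ y)
      rw [G_high _ _ hβ hy.le, div_self hb.ne']
    · unfold blueF
      rw [Monotone.stieltjesFunction_eq]
      refine ((G_div_mono β hβ).rightLim_le (lt_add_one y)).trans ?_
      rw [G_high _ _ hβ (by linarith), div_self hb.ne']

/-- BLUE's optimal strategy. -/
noncomputable def blueOpt (β : ℝ) (hβ : 0 ≤ β) : ProbabilityMeasure Blue :=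
  ⟨(blueF β hβ).measure.map clamp, by
    have := blue_isProb β hβ
    exact Measure.isProbabilityMeasure_map clamp_measurable.aemeasurable⟩

lemma blueOpt_hit (β : ℝ) (hβ : 0 ≤ β) (c : Red) (hc : 0 < c.1.2) :
    (1 - M β / c.1.2) / (1 + β) ≤ (blueOpt β hβ : Measure Blue).real (hit c) := by
  have hv := M_pos β hβ
  have hv1 := M_le_one β hβ
  have hb : 0 < 1 + β := by linarith
  have := blue_isProb β hβ
  rcases le_or_gt c.1.2 (M β) with h | h
  · have h1 : (1 - M β / c.1.2) / (1 + β) ≤ 0 := by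
      apply div_nonpos_of_nonpos_of_nonneg _ hb.le
      rw [sub_nonpos, one_le_div hc]
      exact h
    exact h1.trans measureReal_nonneg
  · have h0 : 0 ≤ c.1.1 := c.2.1
    have h2 : c.1.1 + c.1.2 ≤ 1 := c.2.2.2
    have hstep := G_step (M β) c.1.1 c.1.2 hv hv1 h0 h h2
    have hmeas : (blueOpt β hβ : Measure Blue) (hit c) =
        (blueF β hβ).measure (clamp ⁻¹' (hit c)) := by
      change ((blueF β hβ).measure.map clamp) (hit c) = _
      rw [Measure.map_apply clamp_measurable (hit_measurable c)]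
    have hsub : Set.Icc c.1.1 (c.1.1 + c.1.2) ⊆ clamp ⁻¹' (hit c) := by
      intro x hx
      have hx1 : x ≤ 1 := hx.2.trans h2
      have hx0 : 0 ≤ x := h0.trans hx.1
      change max 0 (min x 1) ∈ Set.Icc c.1.1 (c.1.1 + c.1.2)
      rw [min_eq_left hx1, max_eq_right hx0]
      exact hx
    have h3 : (blueF β hβ).measure (Set.Icc c.1.1 (c.1.1 + c.1.2)) ≤
        (blueOpt β hβ : Measure Blue) (hit c) := by
      rw [hmeas]; exact measure_mono hsub
    rw [StieltjesFunction.measure_Icc] at h3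
    have h4 : (blueF β hβ) (c.1.1 + c.1.2) - Function.leftLim (blueF β hβ) c.1.1 ≤
        (blueOpt β hβ : Measure Blue).real (hit c) := by
      rw [Measure.real]
      exact (ENNReal.ofReal_le_iff_le_toReal (measure_ne_top _ _)).1 h3
    have h5 := blueF_ge β hβ (c.1.1 + c.1.2)
    have h6 := blueF_leftLim_le β hβ c.1.1
    have h7 : (1 - M β / c.1.2) / (1 + β) ≤
        G (M β) (c.1.1 + c.1.2) / (1 + β) - G (M β) c.1.1 / (1 + β) := by
      rw [← sub_div]
      apply div_le_div_of_nonneg_right _ hb.le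
      linarith
    linarith

lemma integral_payoff (β : ℝ) (c : Red) (ν : ProbabilityMeasure Blue) :
    ∫ p, payoff β c p ∂(ν : Measure Blue) =
      c.1.2 - (1 + β) * c.1.2 * (ν : Measure Blue).real (hit c) := by
  simp_rw [payoff_eq]
  rw [integral_sub (integrable_const _)
    (((integrable_const (1 : ℝ)).indicator (hit_measurable c)).const_mul _)]
  rw [integral_const_mul, integral_indicator_const _ (hit_measurable c)]
  simp

lemma blueOpt_payoff (β : ℝ) (hβ : 0 ≤ β) (c : Red) :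
    ∫ p, payoff β c p ∂(blueOpt β hβ : Measure Blue) ≤ M β := by
  have hv := M_pos β hβ
  have hb : 0 < 1 + β := by linarith
  rw [integral_payoff]
  rcases (len_nonneg c).eq_or_lt with h | h
  · rw [← h]; simp; exact hv.le
  · have h1 := blueOpt_hit β hβ c h
    rw [div_le_iff₀ hb] at h1
    have h2 : c.1.2 * (1 - M β / c.1.2) = c.1.2 - M β := by field_simp
    nlinarith [mul_le_mul_of_nonneg_left h1 h.le]

lemma expPayoff_blueOpt (β : ℝ) (hβ : 0 ≤ β) (μ : ProbabilityMeasure Red) :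
    expPayoff β μ (blueOpt β hβ) ≤ M β := by
  unfold expPayoff
  rw [integral_prod _ (payoff_integrable β hβ μ _)]
  have h1 : ∫ c, (∫ p, payoff β c p ∂(blueOpt β hβ : Measure Blue)) ∂(μ : Measure Red) ≤
      ∫ _c, M β ∂(μ : Measure Red) := by
    apply integral_mono
    · exact (payoff_integrable β hβ μ (blueOpt β hβ)).integral_prod_left
    · exact integrable_const _
    · intro c; exact blueOpt_payoff β hβ c
  simpa using h1

/-! ### The lower bound: RED's strategies -/

/-- The `i`-th of `n` disjoint intervals of length `1/n - δ`. -/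
noncomputable def redInt (n : ℕ+) (δ : ℝ) (hδ : 0 < δ) (hδn : δ ≤ 1 / (n : ℝ)) (i : Fin n) : Red :=
  ⟨((i : ℝ) / n, 1 / (n : ℝ) - δ), by
    have hn : (0 : ℝ) < n := by exact_mod_cast n.pos
    have hi : ((i : ℕ) : ℝ) + 1 ≤ n := by exact_mod_cast i.2
    refine ⟨by positivity, ?_, ?_⟩
    · simp only; linarith
    · simp only
      have : ((i : ℕ) : ℝ) / n + 1 / n ≤ 1 := by
        rw [← add_div, div_le_one hn]; exact hi
      linarith⟩

lemma redInt_disjoint (n : ℕ+) (δ : ℝ) (hδ : 0 < δ) (hδn : δ ≤ 1 / (n : ℝ)) (i j : Fin n)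
    (p : Blue) (hi : p ∈ hit (redInt n δ hδ hδn i)) (hj : p ∈ hit (redInt n δ hδ hδn j)) :
    i = j := by
  have hn : (0 : ℝ) < n := by exact_mod_cast n.pos
  have key : ∀ i j : Fin n, p ∈ hit (redInt n δ hδ hδn i) → p ∈ hit (redInt n δ hδ hδn j) →
      ¬ i < j := by
    intro i j hi hj hij
    have h1 : p.1 ≤ (i : ℝ) / n + (1 / (n : ℝ) - δ) := hi.2
    have h2 : (j : ℝ) / n ≤ p.1 := hj.1
    have h3 : ((i : ℕ) : ℝ) + 1 ≤ (j : ℕ) := by exact_mod_cast hij
    have h4 : ((i : ℕ) : ℝ) / n + 1 / n ≤ (j : ℕ) / n := by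
      rw [← add_div]; exact div_le_div_of_nonneg_right h3 hn.le
    linarith
  rcases lt_trichotomy i j with h | h | h
  · exact absurd h (key i j hi hj)
  · exact h
  · exact absurd h (key j i hj hi)

/-- RED's mixed strategy: a uniformly chosen one of the `n` intervals. -/
noncomputable def redMix (n : ℕ+) (δ : ℝ) (hδ : 0 < δ) (hδn : δ ≤ 1 / (n : ℝ)) :
    ProbabilityMeasure Red :=
  ⟨∑ i : Fin n, ((n : ENNReal)⁻¹) • Measure.dirac (redInt n δ hδ hδn i), by
    constructor
    have hn : (n : ℕ) ≠ 0 := n.pos.ne'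
    simp only [Measure.coe_finsetSum, Measure.coe_smul, Finset.sum_apply, Pi.smul_apply,
      measure_univ, smul_eq_mul, mul_one, Finset.sum_const, Finset.card_univ, Fintype.card_fin,
      nsmul_eq_mul]
    exact ENNReal.mul_inv_cancel (by exact_mod_cast hn) (ENNReal.natCast_ne_top _)⟩

lemma redMix_integral (n : ℕ+) (δ : ℝ) (hδ : 0 < δ) (hδn : δ ≤ 1 / (n : ℝ)) (f : Red → ℝ) :
    ∫ c, f c ∂(redMix n δ hδ hδn : Measure Red) =
      (∑ i : Fin n, f (redInt n δ hδ hδn i)) / n := by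
  change ∫ c, f c ∂(∑ i : Fin n, ((n : ENNReal)⁻¹) • Measure.dirac (redInt n δ hδ hδn i)) = _
  rw [integral_finsetSum_measure]
  · simp_rw [integral_smul_measure, integral_dirac]
    rw [Finset.sum_div]
    apply Finset.sum_congr rfl
    intro i _
    simp [div_eq_inv_mul]
  · intro i _
    apply Integrable.smul_measure
    · exact integrable_dirac (by simp)
    · have hn : (n : ℕ) ≠ 0 := n.pos.ne'
      simp [hn]

lemma redMix_payoff (β : ℝ) (hβ : 0 ≤ β) (n : ℕ+) (δ : ℝ) (hδ : 0 < δ) (hδn : δ ≤ 1 / (n : ℝ))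
    (p : Blue) :
    (1 / (n : ℝ) - δ) * ((n : ℝ) - 1 - β) / n ≤
      ∫ c, payoff β c p ∂(redMix n δ hδ hδn : Measure Red) := by
  have hn : (0 : ℝ) < n := by exact_mod_cast n.pos
  rw [redMix_integral]
  apply div_le_div_of_nonneg_right _ hn.le
  simp_rw [payoff_eq]
  have hlen : ∀ i, (redInt n δ hδ hδn i).1.2 = 1 / (n : ℝ) - δ := fun i => rfl
  simp_rw [hlen]
  rw [Finset.sum_sub_distrib, ← Finset.mul_sum]
  have hA : 0 ≤ 1 / (n : ℝ) - δ := by linarith
  have hcount : ∑ i : Fin n, (hit (redInt n δ hδ hδn i)).indicator (fun _ => (1 : ℝ)) p ≤ 1 := by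
    by_cases hex : ∃ i, p ∈ hit (redInt n δ hδ hδn i)
    · obtain ⟨i, hi⟩ := hex
      rw [Finset.sum_eq_single i]
      · rw [Set.indicator_of_mem hi]
      · intro j _ hji
        apply Set.indicator_of_notMem
        intro hj
        exact hji (redInt_disjoint n δ hδ hδn j i p hj hi)
      · intro h; exact absurd (Finset.mem_univ i) h
    · push Not at hex
      rw [Finset.sum_eq_zero]
      · exact zero_le_one
      · intro i _
        exact Set.indicator_of_notMem (hex i) _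
  simp only [Finset.sum_const, Finset.card_univ, Fintype.card_fin, nsmul_eq_mul]
  have h2 : 0 ≤ (1 + β) * (1 / (n : ℝ) - δ) := by positivity
  nlinarith [mul_le_mul_of_nonneg_left hcount h2]

lemma expPayoff_redMix (β : ℝ) (hβ : 0 ≤ β) (n : ℕ+) (δ : ℝ) (hδ : 0 < δ)
    (hδn : δ ≤ 1 / (n : ℝ)) (ν : ProbabilityMeasure Blue) :
    (1 / (n : ℝ) - δ) * ((n : ℝ) - 1 - β) / n ≤ expPayoff β (redMix n δ hδ hδn) ν := by
  unfold expPayoff
  rw [integral_prod_symm _ (payoff_integrable β hβ _ ν)]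
  have h1 : ∫ _p, (1 / (n : ℝ) - δ) * ((n : ℝ) - 1 - β) / n ∂(ν : Measure Blue) ≤
      ∫ p, (∫ c, payoff β c p ∂(redMix n δ hδ hδn : Measure Red)) ∂(ν : Measure Blue) := by
    apply integral_mono
    · exact integrable_const _
    · exact (payoff_integrable β hβ (redMix n δ hδ hδn) ν).integral_prod_right
    · intro p; exact redMix_payoff β hβ n δ hδ hδn p
  simpa using h1

lemma upper_le (β : ℝ) (hβ : 0 ≤ β) : upperValue β ≤ (M β : EReal) := by
  unfold upperValue
  refine (iInf_le _ (blueOpt β hβ)).trans ?_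
  apply iSup_le
  intro μ
  exact_mod_cast expPayoff_blueOpt β hβ μ

lemma le_lower (β : ℝ) (hβ : 0 ≤ β) : (M β : EReal) ≤ lowerValue β := by
  obtain ⟨n, hn⟩ := M_attained β hβ
  have hv := M_pos β hβ
  have hn0 : (0 : ℝ) < n := by exact_mod_cast n.pos
  apply le_of_forall_lt_imp_le_of_dense
  intro q hq
  obtain ⟨r, hqr, hrM⟩ := EReal.lt_iff_exists_real_btwn.1 hq
  have hrM' : r < M β := by exact_mod_cast hrM
  let δ : ℝ := min (1 / (n : ℝ)) (M β - r)
  have hδ : 0 < δ := lt_min (by positivity) (by linarith)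
  have hδn : δ ≤ 1 / (n : ℝ) := min_le_left _ _
  have hδr : δ ≤ M β - r := min_le_right _ _
  refine hqr.le.trans ?_
  unfold lowerValue
  refine le_trans ?_ (le_iSup _ (redMix n δ hδ hδn))
  apply le_iInf
  intro ν
  have h1 := expPayoff_redMix β hβ n δ hδ hδn ν
  have h2 : (1 / (n : ℝ) - δ) * ((n : ℝ) - 1 - β) / n =
      M β - δ * (((n : ℝ) - 1 - β) / n) := by
    rw [← hn]; field_simp
  have h3 : ((n : ℝ) - 1 - β) / n ≤ 1 := by
    rw [div_le_one hn0]; linarith
  have h5 : r ≤ expPayoff β (redMix n δ hδ hδn) ν := by nlinarith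
  exact_mod_cast h5

/-- **Value of the point-versus-interval greedy game.** For every `β ≥ 0` the game `Γ_β` has a
value, and it equals `M β = max_{n ≥ 1} (n - 1 - β) / n ^ 2`. -/
theorem result (β : ℝ) (hβ : 0 ≤ β) :
    IsGreatest (Set.range fun n : ℕ+ => ((n : ℝ) - 1 - β) / (n : ℝ) ^ 2) (M β) ∧
      lowerValue β = (M β : EReal) ∧ upperValue β = (M β : EReal) := by
  have h1 : lowerValue β ≤ upperValue β := iSup_iInf_le_iInf_iSup _
  refine ⟨⟨?_, ?_⟩, ?_, ?_⟩
  · obtain ⟨n, hn⟩ := M_attained β hβ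
    exact ⟨n, hn⟩
  · rintro _ ⟨n, rfl⟩
    exact le_M β hβ n
  · exact le_antisymm (h1.trans (upper_le β hβ)) (le_lower β hβ)
  · exact le_antisymm (upper_le β hβ) ((le_lower β hβ).trans h1)

end Pool.Agent.Results.MP_d7d923_pr.Value
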